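import Pool.Agent.H.MP_6bd626_an.Main

namespace Pool.Agent.Results.MP_6bd626_an.NoProj

open Pool.Agent.H.MP_6bd626_an

def Lip0 (X : Type) [NormedAddCommGroup X] : Submodule ℝ (X → ℝ) where
  carrier := {f | f 0 = 0 ∧ ∃ L, LipschitzWith L f}
  add_mem' := fun ⟨a, _, h⟩ ⟨b, _, k⟩ => ⟨by simp [a, b], _, h.add k⟩
  zero_mem' := ⟨rfl, 0, LipschitzWith.const 0⟩
  smul_mem' := fun c _ ⟨a, _, h⟩ => ⟨by simp [a], _, (lipschitzWith_smul c).comp h⟩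

theorem result : ∃ (X : Type) (_ : NormedAddCommGroup X) (_ : NormedSpace ℝ X) (_ : CompleteSpace X)
    (_ : TopologicalSpace.SeparableSpace X),
    ¬ ∃ P : Lip0 X →ₗ[ℝ] (X →L[ℝ] ℝ),
      (∀ (f : Lip0 X) (φ : X →L[ℝ] ℝ), (∀ x, f.1 x = φ x) → P f = φ) ∧
      ∀ (g : X ≃ₗᵢ[ℝ] X) (f f' : Lip0 X), (∀ x, f'.1 x = f.1 (g.symm x)) →
        ∀ x, P f' x = P f (g.symm x) := by
  refine ⟨X, inferInstance, inferInstance, inferInstance, inferInstance, fun ⟨P, h1, h2⟩ => ?_⟩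
  refine main (fun t => P ⟨u t, u_zero t, 1, u_lip t⟩) (fun s t => ?_) fun h t F => ?_
  · rw [← h1 ⟨ev (s, t), map_zero _, _, (ev (s, t)).lipschitz⟩ _ fun _ => rfl, ← map_add]
    exact congrArg P (Subtype.ext (funext (u_ch s t)))
  · exact (h2 (R h).symm _ _ (fun x => (u_R h t x).symm) F).symm

end Pool.Agent.Results.MP_6bd626_an.NoProj
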